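import Pool.Agent.H.MP_f0eba7_co.Main

namespace Pool.Agent.Results.MP_75a6f0_co.Cover
open Pool.Agent.H.MP_f66848_co

theorem result :
    (∀ (V : Type) [Fintype V] (G : SimpleGraph V) (A : Finset V) (k : ℕ), A.Nonempty →
      (∀ u v, G.Adj u v → u ∈ A ∨ v ∈ A) → Fintype.card V + A.card ≤ 2 * k → PropChoosable G k) ∧
    ∀ n m k : ℕ, 1 ≤ n → 2 * n ≤ m + 2 → m + 1 ≤ k →
      PropChoosable (completeBipartiteGraph (Fin n) (Fin m)) k := by
  classical
  exact ⟨fun _ _ G _ _ h1 h2 h3 => Pool.Agent.H.MP_f0eba7_co.upper G h1 h2 h3,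
    fun n m k h1 h2 h3 => upper (by simpa using h1) (by simp only [Fintype.card_fin]; omega)⟩

end Pool.Agent.Results.MP_75a6f0_co.Cover
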